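import Pool.Agent.W165.CE.Euler
import Pool.Agent.L7h1.AB.Prod
import Pool.Agent.L7h1.SP.Tw

/-!
# The local factors of `y² = x³ + a x + b` over a quadratic extension
-/

set_option autoImplicit false
set_option linter.unusedSectionVars false
set_option linter.unusedVariables false
set_option linter.style.haveILetI false

open IsDedekindDomain NumberField Finset
open scoped Classical

namespace Pool.Agent.L7h1.NC

open W165.CE (pw pw_eq pw_luc av fac ap0 intCast_mem_iff trace_good trace_bound)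
open Pool.Agent.H921R2.TatePole (nm below deg nm_eq two_le_nm)
open Pool.Agent.H82R3.EK (luc luc_eq)
open Pool.Agent.L7h1.AB (lf Bd P)
open Pool.Agent.L7h1.QB (nm_ne norm_cpow)
open Pool.Agent.L7h1.SP (fib mem_fib' split qs not_mem_of card_quot fin_quot)

lemma roots {t : ℂ} (ht : t.im = 0) {n : ℝ} (hn : 0 ≤ n) (h : ‖t‖ ≤ 2 * Real.sqrt n) :
    ∃ x : ℂ, x + (starRingEnd ℂ) x = t ∧ x * (starRingEnd ℂ) x = (n : ℂ) ∧ ‖x‖ = Real.sqrt n := by
  have h1 : t = ((t.re : ℝ) : ℂ) := Complex.ext rfl (by simp [ht])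
  have h2 : |t.re| ≤ 2 * Real.sqrt n := by
    rw [h1, Complex.norm_real] at h
    exact h
  have h3 : t.re ^ 2 ≤ 4 * n := by
    have h4 : |t.re| ^ 2 ≤ (2 * Real.sqrt n) ^ 2 := by gcongr
    rw [sq_abs, mul_pow, Real.sq_sqrt hn] at h4
    linarith
  have h5 : 0 ≤ n - t.re ^ 2 / 4 := by linarith
  have h6 : Real.sqrt (n - t.re ^ 2 / 4) ^ 2 = n - t.re ^ 2 / 4 := Real.sq_sqrt h5
  set d := Real.sqrt (n - t.re ^ 2 / 4) with hd
  refine ⟨⟨t.re / 2, d⟩, ?_, ?_, ?_⟩
  · apply Complex.ext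
    · show t.re / 2 + t.re / 2 = t.re
      ring
    · show d + -d = t.im
      rw [ht]
      ring
  · apply Complex.ext
    · show t.re / 2 * (t.re / 2) - d * (-d) = n
      linear_combination h6
    · show t.re / 2 * (-d) + d * (t.re / 2) = 0
      ring
  · rw [Complex.norm_eq_sqrt_sq_add_sq]
    congr 1
    show (t.re / 2) ^ 2 + d ^ 2 = n
    rw [h6]
    ring

section places
variable {K : Type} [Field K] [NumberField K]

/-- a place dividing `2 Δ` -/
def Bad (a b : ℤ) (v : HeightOneSpectrum (𝓞 K)) : Prop :=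
  ((2 * (4 * a ^ 3 + 27 * b ^ 2) : ℤ) : 𝓞 K) ∈ v.asIdeal

/-- the linear coefficients -/
noncomputable def tt (a b : ℤ) (N : ℕ) (c : ℕ → ℂ) (v : HeightOneSpectrum (𝓞 K)) : ℂ :=
  if Bad a b v then pw (c (below v)) (if (below v : ℕ) ∣ N then 0 else ((below v : ℕ) : ℂ)) (deg v)
  else ((av a b v : ℤ) : ℂ)

/-- the quadratic coefficients -/
noncomputable def uu (a b : ℤ) (N : ℕ) (v : HeightOneSpectrum (𝓞 K)) : ℂ :=
  if Bad a b v ∧ (below v : ℕ) ∣ N then 0 else (nm v : ℂ)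

lemma fac_lf (a b : ℤ) (N : ℕ) (c : ℕ → ℂ) (s : ℂ) (v : HeightOneSpectrum (𝓞 K)) :
    fac a b N c s v = (lf (tt a b N c) (uu a b N) v ((nm v : ℂ) ^ (-s)))⁻¹ := by
  have e : ((Ideal.absNorm v.asIdeal : ℕ) : ℂ) ^ (1 - 2 * s) =
      (nm v : ℂ) * ((nm v : ℂ) ^ (-s)) ^ 2 := by
    show (nm v : ℂ) ^ (1 - 2 * s) = _
    rw [show (1 - 2 * s : ℂ) = 1 + (-s) + (-s) by ring, Complex.cpow_add _ _ (nm_ne v),
      Complex.cpow_add _ _ (nm_ne v), Complex.cpow_one]
    ring
  have hb : (Ideal.absNorm v.asIdeal).minFac = (below v : ℕ) := rfl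
  have hd : (Ideal.absNorm v.asIdeal).factorization (Ideal.absNorm v.asIdeal).minFac = deg v := rfl
  have hn : ((Ideal.absNorm v.asIdeal : ℕ) : ℂ) = (nm v : ℂ) := rfl
  unfold fac lf tt uu
  rw [hd, hb, e, hn]
  by_cases h1 : Bad a b v
  · have h1' : ((2 * (4 * a ^ 3 + 27 * b ^ 2) : ℤ) : 𝓞 K) ∈ v.asIdeal := h1
    rw [if_pos h1', if_pos h1]
    by_cases h2 : (below v : ℕ) ∣ N
    · rw [if_pos h2, if_pos h2, if_pos ⟨h1, h2⟩, zero_mul]
    · rw [if_neg h2, if_neg h2, if_neg (fun h => h2 h.2)]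
  · have h1' : ((2 * (4 * a ^ 3 + 27 * b ^ 2) : ℤ) : 𝓞 K) ∉ v.asIdeal := h1
    rw [if_neg h1', if_neg h1, if_neg (fun h => h1 h.1)]

/-- the hypotheses on the coefficients -/
structure Cf (a b : ℤ) (N : ℕ) (c : ℕ → ℂ) : Prop where
  real : ∀ p, (c p).im = 0
  good : ∀ p : ℕ, p.Prime → ¬ p ∣ N → ‖c p‖ ≤ 2 * Real.sqrt p
  bad : ∀ p : ℕ, p.Prime → p ∣ N → ‖c p‖ ≤ 1

theorem bd {a b : ℤ} {N : ℕ} {c : ℕ → ℂ} (h : Cf a b N c) :
    Bd (K := K) (tt a b N c) (uu a b N) := by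
  intro v
  obtain ⟨n1, n2, n3⟩ := nm_eq v
  have hnn : (0 : ℝ) ≤ (nm v : ℝ) := by positivity
  have hsq : Real.sqrt (nm v : ℝ) = (nm v : ℝ) ^ (1 / 2 : ℝ) := Real.sqrt_eq_rpow _
  unfold tt uu
  by_cases h1 : Bad a b v
  · rw [if_pos h1]
    by_cases h2 : (below v : ℕ) ∣ N
    · rw [if_pos h2, if_pos ⟨h1, h2⟩]
      refine ⟨c (below v) ^ deg v, 0, ?_, by ring, ?_, ?_⟩
      · rw [pw_eq (α := c (below v)) (β := 0) (by ring) (by ring), zero_pow n2.ne']
      · rw [norm_pow]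
        have h3 : ‖c (below v)‖ ^ deg v ≤ 1 := pow_le_one₀ (norm_nonneg _) (h.bad _ (below v).2 h2)
        have h4 : (1 : ℝ) ≤ (nm v : ℝ) ^ (1 / 2 : ℝ) := by
          refine Real.one_le_rpow ?_ (by norm_num)
          have := two_le_nm v
          exact_mod_cast (by omega : 1 ≤ nm v)
        linarith
      · rw [norm_zero]
        positivity
    · rw [if_neg h2, if_neg (fun h => h2 h.2)]
      obtain ⟨x, e1, e2, e3⟩ := roots (h.real (below v)) (n := ((below v : ℕ) : ℝ))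
        (by positivity) (h.good _ (below v).2 h2)
      have e4 : ‖(starRingEnd ℂ) x‖ = Real.sqrt ((below v : ℕ) : ℝ) := by
        rw [RCLike.norm_conj, e3]
      have hp : Real.sqrt ((below v : ℕ) : ℝ) ^ deg v = (nm v : ℝ) ^ (1 / 2 : ℝ) := by
        have e5 : ((below v : ℕ) : ℝ) ^ deg v =
            (Real.sqrt ((below v : ℕ) : ℝ) ^ deg v) ^ 2 := by
          rw [← pow_mul, mul_comm, pow_mul, Real.sq_sqrt (by positivity)]
        rw [← hsq, n1]
        push_cast
        rw [e5, Real.sqrt_sq (by positivity)]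
      refine ⟨x ^ deg v, ((starRingEnd ℂ) x) ^ deg v, ?_, ?_, ?_, ?_⟩
      · exact pw_eq e1 (by rw [e2]; push_cast; rfl) _
      · rw [← mul_pow, e2, n1]
        push_cast
        rfl
      · rw [norm_pow, e3, hp]
      · rw [norm_pow, e4, hp]
  · rw [if_neg h1, if_neg (fun h => h1 h.1)]
    have h2 := trace_bound v (fun h => h1 ((intCast_mem_iff v _).2 h))
    obtain ⟨x, e1, e2, e3⟩ := roots (t := ((av a b v : ℤ) : ℂ)) (by simp)
      (n := (nm v : ℝ)) hnn (by rw [Complex.norm_intCast]; exact h2)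
    have e4 : ‖(starRingEnd ℂ) x‖ = Real.sqrt (nm v : ℝ) := by
      rw [RCLike.norm_conj, e3]
    refine ⟨x, (starRingEnd ℂ) x, e1.symm, ?_, ?_, ?_⟩
    · rw [e2]
      push_cast
      rfl
    · rw [e3, hsq]
    · rw [e4, hsq]

end places

section rel
variable {k K : Type} [Field k] [NumberField k] [Field K] [NumberField K] [Algebra k K]

lemma bad_iff {a b : ℤ} (v : HeightOneSpectrum (𝓞 k)) :
    Bad a b v ↔ ((below v : ℕ) : ℤ) ∣ 2 * (4 * a ^ 3 + 27 * b ^ 2) := intCast_mem_iff v _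

/-- **The factors at the places above `v`.** -/
theorem loc_rel {a b : ℤ} {N : ℕ} {c : ℕ → ℂ} (h2 : Module.finrank k K = 2) {r : 𝓞 K} {δ : 𝓞 k}
    (hr : r ^ 2 = algebraMap (𝓞 k) (𝓞 K) δ) (hns : ∀ x : k, algebraMap k K x ≠ r)
    {v : HeightOneSpectrum (𝓞 k)} (h2v : (2 : 𝓞 k) ∉ v.asIdeal) (hb : ¬ Bad a b v)
    (hδ : δ ∉ v.asIdeal) (s : ℂ) :
    P (K := K) (tt a b N c) (uu a b N) v s = lf (tt a b N c) (uu a b N) v ((nm v : ℂ) ^ (-s)) *
      lf (tt a b N c) (uu a b N) v ((qs δ v : ℂ) * (nm v : ℂ) ^ (-s)) := by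
  have hav := trace_good v (fun h => hb ((bad_iff v).2 h))
  rcases split h2 hr hns v h2v hδ with ⟨hsq, w, w', hne, hlo, hw, hw'⟩ | ⟨hsq, w, hlo, hw⟩
  · have hfib : fib K v = {w, w'} := by
      ext u
      rw [mem_fib', hlo]
      simp
    have hone : ∀ u : HeightOneSpectrum (𝓞 K), u.asIdeal.LiesOver v.asIdeal →
        Nat.card (𝓞 K ⧸ u.asIdeal) = Nat.card (𝓞 k ⧸ v.asIdeal) →
        lf (tt a b N c) (uu a b N) u ((nm u : ℂ) ^ (-s)) =
          lf (tt a b N c) (uu a b N) v ((nm v : ℂ) ^ (-s)) := by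
      intro u hu hc
      rw [card_quot, card_quot] at hc
      have hbu : (below u : ℕ) = (below v : ℕ) := congrArg Nat.minFac hc
      have hdu : deg u = deg v := by
        show (nm u).factorization (below u : ℕ) = (nm v).factorization (below v : ℕ)
        rw [hc, hbu]
      have hb' : ¬ Bad a b u := by
        intro h
        apply hb
        rw [bad_iff] at h ⊢
        rwa [hbu] at h
      have hav' := trace_good u (fun h => hb' ((bad_iff u).2 h))
      have e : av a b u = av a b v := by rw [hav, hav', hbu, hdu]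
      unfold lf tt uu
      rw [if_neg hb, if_neg hb', if_neg (fun h => hb' h.1), if_neg (fun h => hb h.1), hc, e]
    unfold P
    rw [hfib, Finset.prod_pair hne, hone w ((hlo w).2 (Or.inl rfl)) hw,
      hone w' ((hlo w').2 (Or.inr rfl)) hw']
    have e : qs δ v = 1 := if_pos hsq
    rw [e]
    simp
  · have hfib : fib K v = {w} := by
      ext u
      rw [mem_fib', hlo]
      simp
    rw [card_quot, card_quot] at hw
    have hn1 : nm v ≠ 1 := by
      have := two_le_nm v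
      omega
    have hbu : (below w : ℕ) = (below v : ℕ) := by
      show (nm w).minFac = (nm v).minFac
      rw [hw, Nat.pow_minFac two_ne_zero]
    have hdu : deg w = 2 * deg v := by
      show (nm w).factorization (below w : ℕ) = 2 * (nm v).factorization (below v : ℕ)
      rw [hw, hbu, Nat.factorization_pow]
      simp
    have hb' : ¬ Bad a b w := by
      intro h
      apply hb
      rw [bad_iff] at h ⊢
      rwa [hbu] at h
    have hav' := trace_good w (fun h => hb' ((bad_iff w).2 h))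
    rw [hbu, hdu] at hav'
    obtain ⟨n1, n2, n3⟩ := nm_eq v
    -- the roots
    obtain ⟨x, y, e1, e2⟩ := W165.CE.exists_roots' ((ap0 a b (below v) : ℤ) : ℂ)
      (((below v : ℕ) : ℤ) : ℂ)
    have f1 : ((av a b v : ℤ) : ℂ) = x ^ deg v + y ^ deg v := by
      rw [hav, luc_eq e1 e2]
    have f2 : ((av a b w : ℤ) : ℂ) = x ^ (2 * deg v) + y ^ (2 * deg v) := by
      rw [hav', luc_eq e1 e2]
    have f3 : (nm v : ℂ) = x ^ deg v * y ^ deg v := by
      rw [← mul_pow, e2, n1]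
      push_cast
      rfl
    have e : qs δ v = -1 := if_neg hsq
    have hX : (nm w : ℂ) ^ (-s) = ((nm v : ℂ) ^ (-s)) ^ 2 := by
      rw [hw]
      push_cast
      rw [← Complex.natCast_cpow_natCast_mul, Complex.cpow_nat_mul]
    unfold P
    rw [hfib, Finset.prod_singleton, hX, e]
    unfold lf tt uu
    rw [if_neg hb, if_neg hb', if_neg (fun h => hb' h.1), if_neg (fun h => hb h.1), hw, f1, f2]
    push_cast
    rw [f3]
    ring

end rel

end Pool.Agent.L7h1.NC
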