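import Pool.Agent.L7h1.NC.Loc
import Pool.Agent.L7h1.SP.Main

/-!
# Quadric bundles attached to `y² = x³ + a x + b`: the `L`-functions and the points
-/

set_option autoImplicit false
set_option linter.unusedSectionVars false
set_option linter.unusedVariables false
set_option linter.style.haveILetI false

open IsDedekindDomain NumberField Finset
open scoped Classical

namespace Pool.Agent.L7h1.NC

open W165.CE (av trace_bound)
open Pool.Agent.H921R2.TatePole (nm below deg nm_eq two_le_nm)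
open Pool.Agent.L7h1.AB (lf Bd P Cont)
open Pool.Agent.L7h1.QB (nm_ne norm_cpow cone aff)
open Pool.Agent.L7h1.SP (qs card_quot fin_quot cone_gen)

section count
variable {k : Type} [Field k] [NumberField k]

/-- **the points modulo a place** -/
theorem count {a b : ℤ} {N : ℕ} {c : ℕ → ℂ} (v : HeightOneSpectrum (𝓞 k))
    (h2 : (2 : 𝓞 k) ∉ v.asIdeal) (hb : ¬ Bad a b v) (m : ℕ) {x : Fin (2 * m + 1) → 𝓞 k}
    (hx : ∀ i, x i ∉ v.asIdeal) :
    ∃ α : ℂ, ‖α‖ ^ 2 = (nm v : ℝ) ^ (2 * m + 1) ∧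
      (cone (𝓞 k ⧸ v.asIdeal) m (fun i => Ideal.Quotient.mk v.asIdeal (x i))
        (fun t => t ^ 3 + (a : 𝓞 k ⧸ v.asIdeal) * t + (b : 𝓞 k ⧸ v.asIdeal)) : ℂ) =
        ((nm v : ℂ) - 1) * ((1 + nm v) * ∑ l ∈ range (2 * m + 1), (nm v : ℂ) ^ l -
          (α + (starRingEnd ℂ) α)) ∧
      ∀ X : ℂ, lf (tt a b N c) (uu a b N) v
        ((qs ((-1) ^ m * ∏ i, x i) v : ℂ) * ((nm v : ℂ) ^ m * X)) =
        (1 - α * X) * (1 - (starRingEnd ℂ) α * X) := by
  have hm : v.asIdeal.IsMaximal := v.isMaximal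
  letI : Field (𝓞 k ⧸ v.asIdeal) := Ideal.Quotient.field v.asIdeal
  have hfin := fin_quot v
  letI : Fintype (𝓞 k ⧸ v.asIdeal) := Fintype.ofFinite _
  have hcard : Fintype.card (𝓞 k ⧸ v.asIdeal) = nm v := by
    rw [← Nat.card_eq_fintype_card]
    exact card_quot v
  have hne : ∀ x : 𝓞 k, x ∉ v.asIdeal → Ideal.Quotient.mk v.asIdeal x ≠ 0 := fun x hx => by
    rwa [Ne, Ideal.Quotient.eq_zero_iff_mem]
  have h2' : (2 : 𝓞 k ⧸ v.asIdeal) ≠ 0 := by
    have h := hne 2 h2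
    rwa [map_ofNat] at h
  have hchar : ringChar (𝓞 k ⧸ v.asIdeal) ≠ 2 := by
    intro h
    apply h2'
    have h5 : ((2 : ℕ) : 𝓞 k ⧸ v.asIdeal) = 0 := by
      rw [← h]
      exact ringChar.Nat.cast_ringChar
    exact_mod_cast h5
  have htb := trace_bound v (fun h => hb ((bad_iff v).2 h))
  obtain ⟨β, b1, b2, b3⟩ := roots (t := ((av a b v : ℤ) : ℂ)) (by simp)
    (n := (nm v : ℝ)) (by positivity) (by rw [Complex.norm_intCast]; exact htb)
  set χ : ℤ := qs ((-1) ^ m * ∏ i, x i) v with hχ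
  have hχ' : quadraticChar (𝓞 k ⧸ v.asIdeal)
      ((-1) ^ m * ∏ i, Ideal.Quotient.mk v.asIdeal (x i)) = χ := by
    have e1 : (-1) ^ m * ∏ i, Ideal.Quotient.mk v.asIdeal (x i) =
        Ideal.Quotient.mk v.asIdeal ((-1) ^ m * ∏ i, x i) := by
      rw [map_mul, map_pow, map_neg, map_one, map_prod]
    have hd : (-1) ^ m * ∏ i, x i ∉ v.asIdeal := by
      intro h
      rcases v.isPrime.mem_or_mem h with h | h
      · have h5 := v.isPrime.mem_of_pow_mem _ h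
        rw [neg_mem_iff] at h5
        exact v.isPrime.ne_top ((Ideal.eq_top_iff_one _).2 h5)
      · obtain ⟨i, -, hi⟩ := (v.isPrime.prod_mem_iff).1 h
        exact hx i hi
    rw [e1, hχ]
    unfold qs
    split_ifs with h
    · obtain ⟨y, hy⟩ := h
      rw [quadraticChar_one_iff_isSquare (hne _ hd)]
      refine ⟨Ideal.Quotient.mk v.asIdeal y, ?_⟩
      rw [← map_mul, ← pow_two]
      exact ((Ideal.Quotient.eq).2 hy).symm
    · rw [quadraticChar_neg_one_iff_not_isSquare]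
      rintro ⟨z, hz⟩
      obtain ⟨y, rfl⟩ := Ideal.Quotient.mk_surjective z
      apply h
      refine ⟨y, ?_⟩
      rw [← Ideal.Quotient.eq, hz, pow_two, map_mul]
  have hχ1 : χ = 1 ∨ χ = -1 := by
    rw [hχ]
    unfold qs
    split_ifs
    · exact Or.inl rfl
    · exact Or.inr rfl
  have hχ2 : (χ : ℂ) ^ 2 = 1 := by
    rcases hχ1 with h | h <;> rw [h] <;> norm_num
  have hχn : ‖(χ : ℂ)‖ = 1 := by
    rcases hχ1 with h | h <;> rw [h] <;> norm_num
  have hχc : (starRingEnd ℂ) (χ : ℂ) = χ := by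
    rcases hχ1 with h | h <;> rw [h] <;> norm_num
  have hcone := cone_gen hchar m (fun i => Ideal.Quotient.mk v.asIdeal (x i))
    (fun i => hne _ (hx i)) (fun t => t ^ 3 + (a : 𝓞 k ⧸ v.asIdeal) * t + (b : 𝓞 k ⧸ v.asIdeal))
  rw [hcard, hχ'] at hcone
  have hcone' : (cone (𝓞 k ⧸ v.asIdeal) m (fun i => Ideal.Quotient.mk v.asIdeal (x i))
      (fun t => t ^ 3 + (a : 𝓞 k ⧸ v.asIdeal) * t + (b : 𝓞 k ⧸ v.asIdeal)) : ℂ) =
      ((nm v : ℂ) + 1) * ((nm v : ℂ) ^ (2 * m + 1) - 1) +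
      ((nm v : ℂ) - 1) * (nm v : ℂ) ^ m *
        ((χ : ℂ) * ((aff (𝓞 k ⧸ v.asIdeal)
          (fun t => t ^ 3 + (a : 𝓞 k ⧸ v.asIdeal) * t + (b : 𝓞 k ⧸ v.asIdeal)) : ℂ) - nm v)) := by
    exact_mod_cast hcone
  have hA : (aff (𝓞 k ⧸ v.asIdeal)
      (fun t => t ^ 3 + (a : 𝓞 k ⧸ v.asIdeal) * t + (b : 𝓞 k ⧸ v.asIdeal)) : ℂ) - nm v =
      -(β + (starRingEnd ℂ) β) := by
    have e1 : av a b v = ((nm v : ℕ) : ℤ) - ((aff (𝓞 k ⧸ v.asIdeal)
      (fun t => t ^ 3 + (a : 𝓞 k ⧸ v.asIdeal) * t + (b : 𝓞 k ⧸ v.asIdeal)) : ℕ) : ℤ) := rfl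
    rw [b1, e1]
    push_cast
    ring
  have hnr : ((nm v : ℝ) : ℂ) = (nm v : ℂ) := by push_cast; rfl
  rw [hnr] at b2
  refine ⟨(χ : ℂ) * ((nm v : ℂ) ^ m * β), ?_, ?_, fun X => ?_⟩
  · have h6 : ‖β‖ ^ 2 = (nm v : ℝ) := by
      rw [b3, Real.sq_sqrt (by positivity)]
    rw [norm_mul, norm_mul, hχn, one_mul, mul_pow, h6, norm_pow, Complex.norm_natCast]
    ring
  · have hgeom : ((nm v : ℂ) - 1) * ∑ i ∈ Finset.range (2 * m + 1), (nm v : ℂ) ^ i =
        (nm v : ℂ) ^ (2 * m + 1) - 1 := by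
      rw [mul_comm]
      exact geom_sum_mul _ _
    rw [hcone', hA, map_mul, map_mul, map_pow, Complex.conj_natCast, hχc]
    linear_combination (-(1 + (nm v : ℂ))) * hgeom
  · unfold lf tt uu
    rw [if_neg hb, if_neg (fun h => hb h.1), ← b1, map_mul, map_mul, map_pow,
      Complex.conj_natCast, hχc]
    linear_combination (-((χ : ℂ) * ((nm v : ℂ) ^ m * X)) ^ 2) * b2

end count

section two
variable {k K : Type} [Field k] [NumberField k] [Field K] [NumberField K] [Algebra k K]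

/-- **The `L`-function.** -/
theorem lfun {a b : ℤ} {N : ℕ} {c : ℕ → ℂ} (hab : 4 * a ^ 3 + 27 * b ^ 2 ≠ 0) (hc : Cf a b N c)
    {Lk LK : ℂ → ℂ} (hk : Cont (K := k) (tt a b N c) (uu a b N) Lk)
    (hK : Cont (K := K) (tt a b N c) (uu a b N) LK) (m : ℕ) {x : Fin (2 * m + 1) → 𝓞 k}
    (hx : ∀ i, x i ≠ 0) {r : K}
    (hr : r ^ 2 = algebraMap k K (((-1) ^ m * ∏ i, x i : 𝓞 k) : k))
    (hdeg : (∀ y : k, y ^ 2 ≠ (((-1) ^ m * ∏ i, x i : 𝓞 k) : k)) → Module.finrank k K = 2) :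
    ∃ L : ℂ → ℂ, MeromorphicOn L Set.univ ∧ AnalyticAt ℂ L (m + 1) ∧ L (m + 1) ≠ 0 ∧
      ∃ α : HeightOneSpectrum (𝓞 k) → ℂ,
        (∀ v : HeightOneSpectrum (𝓞 k), ((2 * (4 * a ^ 3 + 27 * b ^ 2) : ℤ) : 𝓞 k) * ∏ i, x i ∉
            v.asIdeal →
          ‖α v‖ ^ 2 = (nm v : ℝ) ^ (2 * m + 1) ∧
          (cone (𝓞 k ⧸ v.asIdeal) m (fun i => Ideal.Quotient.mk v.asIdeal (x i))
            (fun t => t ^ 3 + (a : 𝓞 k ⧸ v.asIdeal) * t + (b : 𝓞 k ⧸ v.asIdeal)) : ℂ) =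
            ((nm v : ℂ) - 1) * ((1 + nm v) * ∑ l ∈ range (2 * m + 1), (nm v : ℂ) ^ l -
              (α v + (starRingEnd ℂ) (α v)))) ∧
        ∀ s : ℂ, m + 3 / 2 < s.re →
          HasProd (fun v : {v : HeightOneSpectrum (𝓞 k) //
              ((2 * (4 * a ^ 3 + 27 * b ^ 2) : ℤ) : 𝓞 k) * ∏ i, x i ∉ v.asIdeal} =>
            ((1 - α v.1 * (nm v.1 : ℂ) ^ (-s)) *
              (1 - (starRingEnd ℂ) (α v.1) * (nm v.1 : ℂ) ^ (-s)))⁻¹) (L s) := by
  set δ : 𝓞 k := (-1) ^ m * ∏ i, x i with hδ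
  set B : 𝓞 k := ((2 * (4 * a ^ 3 + 27 * b ^ 2) : ℤ) : 𝓞 k) * ∏ i, x i with hB
  have hB0 : B ≠ 0 := by
    refine mul_ne_zero ?_ (Finset.prod_ne_zero_iff.2 fun j _ => hx j)
    rw [Ne, Int.cast_eq_zero]
    exact mul_ne_zero two_ne_zero hab
  have b3 : ∀ v : HeightOneSpectrum (𝓞 k), B ∉ v.asIdeal → ¬ Bad a b v :=
    fun v hv h => hv (Ideal.mul_mem_right _ _ h)
  have b2 : ∀ v : HeightOneSpectrum (𝓞 k), B ∉ v.asIdeal → (2 : 𝓞 k) ∉ v.asIdeal := by
    intro v hv h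
    apply b3 v hv
    unfold Bad
    push_cast
    exact Ideal.mul_mem_right _ _ h
  have b4 : ∀ (v : HeightOneSpectrum (𝓞 k)) (i), B ∉ v.asIdeal → x i ∉ v.asIdeal :=
    fun v j hv h => hv (Ideal.mul_mem_left _ _
      (Ideal.mem_of_dvd _ (Finset.dvd_prod_of_mem x (Finset.mem_univ j)) h))
  have b5 : ∀ v : HeightOneSpectrum (𝓞 k), B ∉ v.asIdeal → δ ∉ v.asIdeal := by
    intro v hv h
    rcases v.isPrime.mem_or_mem h with h | h
    · have h5 := v.isPrime.mem_of_pow_mem _ h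
      rw [neg_mem_iff] at h5
      exact v.isPrime.ne_top ((Ideal.eq_top_iff_one _).2 h5)
    · exact hv (Ideal.mul_mem_left _ _ h)
  have bk : Bd (K := k) (tt a b N c) (uu a b N) := bd hc
  have bK : Bd (K := K) (tt a b N c) (uu a b N) := bd hc
  -- the `L`-function of the twist
  obtain ⟨L₀, c1, c2, c3, c4⟩ : ∃ L : ℂ → ℂ, MeromorphicOn L Set.univ ∧ AnalyticAt ℂ L 1 ∧
      L 1 ≠ 0 ∧ ∀ s : ℂ, 3 / 2 < s.re →
        HasProd (fun v : {v : HeightOneSpectrum (𝓞 k) // B ∉ v.asIdeal} =>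
          (lf (tt a b N c) (uu a b N) v.1 ((qs δ v.1 : ℂ) * (nm v.1 : ℂ) ^ (-s)))⁻¹) (L s) := by
    by_cases hns : ∀ y : k, y ^ 2 ≠ (δ : k)
    · have h2 := hdeg hns
      have hri : IsIntegral ℤ r := by
        have h5 : IsIntegral ℤ (r ^ 2) := by
          rw [hr]
          exact (algebraMap (𝓞 k) (𝓞 K) δ).isIntegral_coe
        exact IsIntegral.of_pow (by norm_num) h5
      obtain ⟨r', rfl⟩ : ∃ r' : 𝓞 K, (r' : K) = r := ⟨⟨r, hri⟩, rfl⟩
      have hr' : r' ^ 2 = algebraMap (𝓞 k) (𝓞 K) δ := RingOfIntegers.ext hr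
      have hns' : ∀ y : k, algebraMap k K y ≠ r' := by
        intro y hy
        apply hns y
        apply (algebraMap k K).injective
        rw [map_pow, hy, hr]
      exact Pool.Agent.L7h1.AB.twist bk bK hk hK hB0 (fun v => (qs δ v : ℂ)) (fun v hv s =>
        loc_rel h2 hr' hns' (b2 v hv) (b3 v hv) (b5 v hv) s)
    · push Not at hns
      obtain ⟨y, hy⟩ := hns
      have hyi : IsIntegral ℤ y := by
        have h5 : IsIntegral ℤ (y ^ 2) := by
          rw [hy]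
          exact δ.isIntegral_coe
        exact IsIntegral.of_pow (by norm_num) h5
      have hq : ∀ v : HeightOneSpectrum (𝓞 k), qs δ v = 1 := by
        intro v
        obtain ⟨y', hy'⟩ : ∃ y' : 𝓞 k, (y' : k) = y := ⟨⟨y, hyi⟩, rfl⟩
        refine if_pos ⟨y', ?_⟩
        have e : y' ^ 2 = δ := by
          apply RingOfIntegers.ext
          rw [← hy, ← hy']
          rfl
        rw [e, sub_self]
        exact v.asIdeal.zero_mem
      obtain ⟨L, l1, l2, l3, l4⟩ := Pool.Agent.L7h1.AB.one bk hk hB0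
      refine ⟨L, l1, l2, l3, fun s hs => ?_⟩
      refine (l4 s hs).congr_fun fun v => ?_
      rw [hq, Int.cast_one, one_mul]
  have hch : ∀ v : HeightOneSpectrum (𝓞 k), ∃ α : ℂ, B ∉ v.asIdeal →
      ‖α‖ ^ 2 = (nm v : ℝ) ^ (2 * m + 1) ∧
      (cone (𝓞 k ⧸ v.asIdeal) m (fun i => Ideal.Quotient.mk v.asIdeal (x i))
        (fun t => t ^ 3 + (a : 𝓞 k ⧸ v.asIdeal) * t + (b : 𝓞 k ⧸ v.asIdeal)) : ℂ) =
        ((nm v : ℂ) - 1) * ((1 + nm v) * ∑ l ∈ range (2 * m + 1), (nm v : ℂ) ^ l -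
          (α + (starRingEnd ℂ) α)) ∧
      ∀ X : ℂ, lf (tt a b N c) (uu a b N) v ((qs δ v : ℂ) * ((nm v : ℂ) ^ m * X)) =
        (1 - α * X) * (1 - (starRingEnd ℂ) α * X) := by
    intro v
    by_cases h : B ∈ v.asIdeal
    · exact ⟨0, fun h' => absurd h h'⟩
    · obtain ⟨α, hα⟩ := count (N := N) (c := c) v (b2 v h) (b3 v h) m (fun i => b4 v i h)
      exact ⟨α, fun _ => hα⟩
  choose α hα using hch
  refine ⟨fun s => L₀ (s - m), fun s _ => ?_, ?_, ?_, α,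
    fun v hv => ⟨(hα v hv).1, (hα v hv).2.1⟩, fun s hs => ?_⟩
  · have h1 : MeromorphicAt L₀ (s - m) := c1 (s - m) (Set.mem_univ _)
    exact h1.comp_analyticAt (f := L₀) (g := fun z : ℂ => z - (m : ℂ)) (by fun_prop)
  · have h1 : AnalyticAt ℂ L₀ ((fun z : ℂ => z - (m : ℂ)) (m + 1)) := by
      have : (fun z : ℂ => z - (m : ℂ)) (m + 1) = 1 := by
        show (m : ℂ) + 1 - m = 1
        ring
      rw [this]
      exact c2
    exact AnalyticAt.comp (g := L₀) (f := fun z : ℂ => z - (m : ℂ)) (x := (m : ℂ) + 1) h1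
      (analyticAt_id.sub analyticAt_const)
  · show L₀ ((m : ℂ) + 1 - m) ≠ 0
    rw [show (m : ℂ) + 1 - m = 1 by ring]
    exact c3
  · have hre : 3 / 2 < (s - (m : ℂ)).re := by
      rw [Complex.sub_re, Complex.natCast_re]
      linarith
    refine (c4 (s - m) hre).congr_fun fun v => ?_
    rw [← (hα v.1 v.2).2.2, show -(s - (m : ℂ)) = (m : ℂ) + -s by ring,
      Complex.cpow_add _ _ (nm_ne v.1), Complex.cpow_natCast]

/-- the curve `y² = x³ + a x + b` -/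
def cur (F : Type) [Field F] (a b : ℤ) : WeierstrassCurve F := ⟨0, 0, 0, (a : F), (b : F)⟩

/-- the curve of the double cover given by the discriminant: `y² = x³ + a δ² x + b δ³` -/
def tw (a b : ℤ) (δ : k) : WeierstrassCurve k := ⟨0, 0, 0, a * δ ^ 2, b * δ ^ 3⟩

/-- the points of the twist -/
theorem pts {a b : ℤ} (hab : 4 * a ^ 3 + 27 * b ^ 2 ≠ 0) (hK : Finite (cur K a b).toAffine.Point)
    {δ : k} (hδ : δ ≠ 0) {r : K} (hr : r ^ 2 = algebraMap k K δ) :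
    Finite (tw a b δ).toAffine.Point := by
  set ι := algebraMap k K
  have hδ' : ι δ ≠ 0 := (map_ne_zero ι).2 hδ
  have hr0 : r ≠ 0 := by
    rintro rfl
    apply hδ'
    rw [← hr]
    norm_num
  have heq : ∀ x y : k, (tw a b δ).toAffine.Nonsingular x y →
      (cur K a b).toAffine.Nonsingular (ι x / ι δ) (ι y / r ^ 3) := by
    intro x y h
    have h1 := h.1
    rw [WeierstrassCurve.Affine.equation_iff] at h1
    simp only [tw] at h1
    have h2 : ι y ^ 2 = ι x ^ 3 + a * ι δ ^ 2 * ι x + b * ι δ ^ 3 := by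
      rw [← map_pow, ← map_pow, ← map_pow, ← map_pow, ← map_intCast ι a, ← map_intCast ι b,
        ← map_mul, ← map_mul, ← map_mul, ← map_add, ← map_add]
      congr 1
      linear_combination h1
    have he : (cur K a b).toAffine.Equation (ι x / ι δ) (ι y / r ^ 3) := by
      rw [WeierstrassCurve.Affine.equation_iff]
      simp only [cur]
      have h6 : ι δ = r ^ 2 := hr.symm
      rw [h6] at h2 ⊢
      field_simp
      linear_combination h2
    have hΔ : (cur K a b).Δ ≠ 0 := by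
      have e : (cur K a b).Δ = ((-16 * (4 * a ^ 3 + 27 * b ^ 2) : ℤ) : K) := by
        simp only [cur, WeierstrassCurve.Δ, WeierstrassCurve.b₂, WeierstrassCurve.b₄,
          WeierstrassCurve.b₆, WeierstrassCurve.b₈]
        push_cast
        ring
      rw [e, Ne, Int.cast_eq_zero]
      exact mul_ne_zero (by norm_num) hab
    exact (WeierstrassCurve.Affine.equation_iff_nonsingular_of_Δ_ne_zero hΔ).1 he
  let f : (tw a b δ).toAffine.Point → (cur K a b).toAffine.Point := fun P =>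
    match P with
    | .zero => .zero
    | .some x y h => .some _ _ (heq x y h)
  refine Finite.of_injective f ?_
  intro P Q hPQ
  rcases P with _ | ⟨x, y, h⟩ <;> rcases Q with _ | ⟨x', y', h'⟩
  · rfl
  · exact absurd hPQ (by simp [f])
  · exact absurd hPQ (by simp [f])
  · have h5 : ι x / ι δ = ι x' / ι δ ∧ ι y / r ^ 3 = ι y' / r ^ 3 := by
      simpa [f] using hPQ
    obtain ⟨e1, e2⟩ := h5
    have e3 : ι x = ι x' := by
      field_simp at e1
      exact e1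
    have e4 : ι y = ι y' := by
      field_simp at e2
      exact e2
    have e5 := ι.injective e3
    have e6 := ι.injective e4
    subst e5
    subst e6
    rfl

end two

end Pool.Agent.L7h1.NC
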